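import Pool.Agent.W716.FV.StmB

/-!
# The map Psi
-/

set_option autoImplicit false

open MeasureTheory InnerProductGeometry

namespace Pool.Agent.W358.FV.PF

open Pool.Agent.W716.FV
open Pool.Agent.H241R3.FV (Sph ext RChart Fill Triang)

lemma cont_of_good {n : ℕ} {u : E n → ℝ} (h : Good 1 u) : Continuous u := by
  have h1 : LipschitzWith 1 u := LipschitzWith.of_dist_le_mul (fun x y => by
    rw [Real.dist_eq, dist_eq_norm]
    have h2 := h.lip x y
    simpa using h2)
  exact h1.continuous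

lemma cont_xi {n : ℕ} (η : E n) : Continuous (fun w : E n × ℝ => xi η w) := by
  unfold xi
  fun_prop

lemma norm_xi_le {n : ℕ} (η : E n) (w : E n × ℝ) : ‖xi η w‖ ≤ ‖w.1‖ + |w.2| * ‖η‖ := by
  unfold xi
  refine (norm_add_le _ _).trans ?_
  rw [norm_smul, Real.norm_eq_abs]

/-- moments -/
noncomputable def C11 (n : ℕ) : ℝ := ∫ w : E n × ℝ, |w.2| * ‖w.1‖ ∂(P n)
/-- moments -/
noncomputable def C20 (n : ℕ) : ℝ := ∫ w : E n × ℝ, w.2 ^ 2 ∂(P n)
/-- moments -/
noncomputable def C02 (n : ℕ) : ℝ := ∫ w : E n × ℝ, ‖w.1‖ ^ 2 ∂(P n)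

lemma i11 (hPM : PMoments) (n : ℕ) : Integrable (fun w : E n × ℝ => |w.2| * ‖w.1‖) (P n) := by
  have := (hPM n).2.1 1 1 (by norm_num)
  simpa using this

lemma i20 (hPM : PMoments) (n : ℕ) : Integrable (fun w : E n × ℝ => w.2 ^ 2) (P n) := by
  have := (hPM n).2.1 2 0 (by norm_num)
  simpa using this

lemma i02 (hPM : PMoments) (n : ℕ) : Integrable (fun w : E n × ℝ => ‖w.1‖ ^ 2) (P n) := by
  have := (hPM n).2.1 0 2 (by norm_num)
  simpa using this

lemma C11_nonneg (n : ℕ) : 0 ≤ C11 n := integral_nonneg fun w => by positivity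
lemma C20_nonneg (n : ℕ) : 0 ≤ C20 n := integral_nonneg fun w => by positivity
lemma C02_nonneg (n : ℕ) : 0 ≤ C02 n := integral_nonneg fun w => by positivity

lemma intb (hPM : PMoments) {n : ℕ} {g : E n × ℝ → ℝ} (hg : Continuous g) {c1 c2 : ℝ}
    (h : ∀ w, |g w| ≤ ‖w.1‖ * c1 + |w.2| * c2) :
    Integrable (fun w : E n × ℝ => w.2 * g w) (P n) ∧
      |∫ w, w.2 * g w ∂(P n)| ≤ c1 * C11 n + c2 * C20 n := by
  have hF : Integrable (fun w : E n × ℝ => c1 * (|w.2| * ‖w.1‖) + c2 * w.2 ^ 2) (P n) :=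
    ((i11 hPM n).const_mul c1).add ((i20 hPM n).const_mul c2)
  have hb : ∀ w : E n × ℝ, ‖w.2 * g w‖ ≤ c1 * (|w.2| * ‖w.1‖) + c2 * w.2 ^ 2 := by
    intro w
    rw [norm_mul, Real.norm_eq_abs, Real.norm_eq_abs]
    have h1 := mul_le_mul_of_nonneg_left (h w) (abs_nonneg w.2)
    have h2 : |w.2| * |w.2| = w.2 ^ 2 := by rw [abs_mul_abs_self]; ring
    have h3 : |w.2| * (‖w.1‖ * c1 + |w.2| * c2) = c1 * (|w.2| * ‖w.1‖) + c2 * (|w.2| * |w.2|) := by
      ring
    rw [h3, h2] at h1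
    exact h1
  have hc : Continuous fun w : E n × ℝ => w.2 * g w := continuous_snd.mul hg
  refine ⟨hF.mono' hc.aestronglyMeasurable (Filter.Eventually.of_forall hb), ?_⟩
  have h3 := norm_integral_le_of_norm_le hF (Filter.Eventually.of_forall hb)
  rw [Real.norm_eq_abs] at h3
  refine h3.trans ?_
  rw [integral_add ((i11 hPM n).const_mul c1) ((i20 hPM n).const_mul c2), integral_const_mul,
    integral_const_mul]
  rfl

lemma intm (hPM : PMoments) {n : ℕ} {g : E n × ℝ → ℝ} (hg : Continuous g) {c1 c2 : ℝ}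
    (h : ∀ w, |g w| ≤ ‖w.1‖ * c1 + |w.2| * c2) :
    Integrable (fun w : E n × ℝ => g w • w.1) (P n) ∧
      ‖∫ w, g w • w.1 ∂(P n)‖ ≤ c1 * C02 n + c2 * C11 n := by
  have hF : Integrable (fun w : E n × ℝ => c1 * ‖w.1‖ ^ 2 + c2 * (|w.2| * ‖w.1‖)) (P n) :=
    ((i02 hPM n).const_mul c1).add ((i11 hPM n).const_mul c2)
  have hb : ∀ w : E n × ℝ, ‖g w • w.1‖ ≤ c1 * ‖w.1‖ ^ 2 + c2 * (|w.2| * ‖w.1‖) := by
    intro w
    rw [norm_smul, Real.norm_eq_abs]
    have h1 := mul_le_mul_of_nonneg_right (h w) (norm_nonneg w.1)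
    nlinarith [h1]
  have hc : Continuous fun w : E n × ℝ => g w • w.1 := hg.smul continuous_fst
  refine ⟨hF.mono' hc.aestronglyMeasurable (Filter.Eventually.of_forall hb), ?_⟩
  have h3 := norm_integral_le_of_norm_le hF (Filter.Eventually.of_forall hb)
  refine h3.trans ?_
  rw [integral_add ((i02 hPM n).const_mul c1) ((i11 hPM n).const_mul c2), integral_const_mul,
    integral_const_mul]
  rfl

/-- the first integral -/
noncomputable def bb {n : ℕ} {M : Type} [MetricSpace M] (bd : Sph n → M) (η : E n) (q : M) : ℝ :=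
  ∫ w, w.2 * UU bd q (xi η w) ∂(P n)

/-- the second integral -/
noncomputable def mm {n : ℕ} {M : Type} [MetricSpace M] (bd : Sph n → M) (η : E n) (q : M) : E n :=
  ∫ w, UU bd q (xi η w) • w.1 ∂(P n)

lemma psi_eq {n : ℕ} {M : Type} [MetricSpace M] (bd : Sph n → M) (η : E n) (R : ℝ) (q : M) :
    Psi bd η R q = ((R ^ 2 + ‖η‖ ^ 2) / 6 - R * bb bd η q, R • mm bd η q - η) := by
  unfold Psi SS TT bb mm
  congr 1
  · congr 1
    rw [← integral_const_mul]
    congr 1
    funext w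
    ring
  · congr 1
    rw [← integral_smul]
    congr 1
    funext w
    rw [mul_smul]

section facts

variable {n : ℕ} {M : Type} [MetricSpace M] {bd : Sph n → M}

lemma abs_UU_le (h4 : ∀ (q : M) (G : E n), UU bd q G ^ 2 ≤ ‖G‖ ^ 2) (q : M) (G : E n) :
    |UU bd q G| ≤ ‖G‖ := by
  exact abs_le_of_sq_le_sq (h4 q G) (norm_nonneg G)

lemma cont_UU (h1 : ∀ q, Good 1 (UU bd q)) (η : E n) (q : M) :
    Continuous fun w : E n × ℝ => UU bd q (xi η w) :=
  (cont_of_good (h1 q)).comp (cont_xi η)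

lemma diff_bound (h1 : ∀ q, Good 1 (UU bd q))
    (h3 : ∀ (q q' : M) (G : E n), |UU bd q G - UU bd q' G| ≤ ‖G‖ * dist q q')
    (η η' : E n) (q q' : M) (w : E n × ℝ) :
    |UU bd q (xi η w) - UU bd q' (xi η' w)| ≤
      ‖w.1‖ * dist q q' + |w.2| * (‖η - η'‖ + ‖η'‖ * dist q q') := by
  have e : UU bd q (xi η w) - UU bd q' (xi η' w) =
      (UU bd q (xi η w) - UU bd q (xi η' w)) + (UU bd q (xi η' w) - UU bd q' (xi η' w)) := by ring
  rw [e]
  refine (abs_add_le _ _).trans ?_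
  have a1 := (h1 q).lip (xi η w) (xi η' w)
  have a2 := h3 q q' (xi η' w)
  have a3 : xi η w - xi η' w = w.2 • (η - η') := by
    unfold xi
    rw [smul_sub]
    abel
  rw [a3, norm_smul, Real.norm_eq_abs, one_mul] at a1
  have a4 := mul_le_mul_of_nonneg_right (norm_xi_le η' w) (dist_nonneg (x := q) (y := q'))
  linarith

lemma bb_diff (hPM : PMoments) (h1 : ∀ q, Good 1 (UU bd q))
    (h3 : ∀ (q q' : M) (G : E n), |UU bd q G - UU bd q' G| ≤ ‖G‖ * dist q q')
    (h4 : ∀ (q : M) (G : E n), UU bd q G ^ 2 ≤ ‖G‖ ^ 2)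
    (η η' : E n) (q q' : M) :
    |bb bd η q - bb bd η' q'| ≤
      dist q q' * C11 n + (‖η - η'‖ + ‖η'‖ * dist q q') * C20 n := by
  have k1 := intb hPM ((cont_UU h1 η q).sub (cont_UU h1 η' q'))
    (diff_bound h1 h3 η η' q q')
  have b1 : ∀ (η : E n) (q : M), Integrable (fun w : E n × ℝ => w.2 * UU bd q (xi η w)) (P n) := by
    intro η q
    refine (intb hPM (cont_UU h1 η q) (c1 := 1) (c2 := ‖η‖) ?_).1
    intro w
    refine (abs_UU_le h4 q _).trans ?_
    rw [mul_one]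
    exact norm_xi_le η w
  have e : bb bd η q - bb bd η' q' = ∫ w : E n × ℝ, w.2 * (UU bd q (xi η w) - UU bd q' (xi η' w))
      ∂(P n) := by
    unfold bb
    rw [← integral_sub (b1 η q) (b1 η' q')]
    congr 1
    funext w
    ring
  rw [e]
  exact k1.2

lemma bb_le (hPM : PMoments) (h1 : ∀ q, Good 1 (UU bd q))
    (h4 : ∀ (q : M) (G : E n), UU bd q G ^ 2 ≤ ‖G‖ ^ 2) (η : E n) (q : M) :
    |bb bd η q| ≤ C11 n + ‖η‖ * C20 n := by
  have k1 := intb hPM (cont_UU h1 η q) (c1 := 1) (c2 := ‖η‖) (by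
    intro w
    refine (abs_UU_le h4 q _).trans ?_
    rw [mul_one]
    exact norm_xi_le η w)
  have := k1.2
  rw [one_mul] at this
  exact this

lemma mm_diff (hPM : PMoments) (h1 : ∀ q, Good 1 (UU bd q))
    (h3 : ∀ (q q' : M) (G : E n), |UU bd q G - UU bd q' G| ≤ ‖G‖ * dist q q')
    (h4 : ∀ (q : M) (G : E n), UU bd q G ^ 2 ≤ ‖G‖ ^ 2)
    (η η' : E n) (q q' : M) :
    ‖mm bd η q - mm bd η' q'‖ ≤
      dist q q' * C02 n + (‖η - η'‖ + ‖η'‖ * dist q q') * C11 n := by
  have k1 := intm hPM ((cont_UU h1 η q).sub (cont_UU h1 η' q'))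
    (diff_bound h1 h3 η η' q q')
  have b1 : ∀ (η : E n) (q : M), Integrable (fun w : E n × ℝ => UU bd q (xi η w) • w.1) (P n) := by
    intro η q
    refine (intm hPM (cont_UU h1 η q) (c1 := 1) (c2 := ‖η‖) ?_).1
    intro w
    refine (abs_UU_le h4 q _).trans ?_
    rw [mul_one]
    exact norm_xi_le η w
  have e : mm bd η q - mm bd η' q' = ∫ w : E n × ℝ, (UU bd q (xi η w) - UU bd q' (xi η' w)) • w.1
      ∂(P n) := by
    unfold mm
    rw [← integral_sub (b1 η q) (b1 η' q')]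
    congr 1
    funext w
    rw [sub_smul]
  rw [e]
  exact k1.2

lemma mm_le (hPM : PMoments) (h1 : ∀ q, Good 1 (UU bd q))
    (h4 : ∀ (q : M) (G : E n), UU bd q G ^ 2 ≤ ‖G‖ ^ 2) (η : E n) (q : M) :
    ‖mm bd η q‖ ≤ C02 n + ‖η‖ * C11 n := by
  have k1 := intm hPM (cont_UU h1 η q) (c1 := 1) (c2 := ‖η‖) (by
    intro w
    refine (abs_UU_le h4 q _).trans ?_
    rw [mul_one]
    exact norm_xi_le η w)
  have := k1.2
  rw [one_mul] at this
  exact this

/-- continuity from an estimate -/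
lemma cont_of_est {G : Type} [NormedAddCommGroup G] (F : E n × M → G) (A B : ℝ)
    (h : ∀ (η η' : E n) (q q' : M), ‖F (η, q) - F (η', q')‖ ≤
      dist q q' * A + (‖η - η'‖ + ‖η'‖ * dist q q') * B) : Continuous F := by
  rw [continuous_iff_continuousAt]
  rintro ⟨η', q'⟩
  rw [ContinuousAt, tendsto_iff_norm_sub_tendsto_zero]
  have hc : Continuous fun z : E n × M =>
      dist z.2 q' * A + (‖z.1 - η'‖ + ‖η'‖ * dist z.2 q') * B := by fun_prop
  have hc2 : Filter.Tendsto (fun z : E n × M =>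
      dist z.2 q' * A + (‖z.1 - η'‖ + ‖η'‖ * dist z.2 q') * B) (nhds (η', q')) (nhds 0) := by
    have := hc.tendsto (η', q')
    simpa using this
  refine squeeze_zero (fun z => norm_nonneg _) (fun z => ?_) hc2
  exact h z.1 η' z.2 q'

lemma bb_bd (hPM : PMoments) (h2 : ∀ (G : E n) (x : Sph n), UU bd (bd x) G = inner ℝ G (x : E n))
    (η : E n) (x : Sph n) : bb bd η (bd x) = inner ℝ η (x : E n) / 3 := by
  obtain ⟨p0, p1, p2, p3, p4, p5, p6, p7, p8⟩ := hPM n
  unfold bb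
  have e : (fun w : E n × ℝ => w.2 * UU bd (bd x) (xi η w)) =
      fun w => w.2 * inner ℝ w.1 (x : E n) + inner ℝ η (x : E n) * w.2 ^ 2 := by
    funext w
    rw [h2]
    unfold xi
    rw [inner_add_left, real_inner_smul_left]
    ring
  rw [e]
  have j1 : Integrable (fun w : E n × ℝ => w.2 * (inner ℝ w.1 (x : E n) : ℝ)) (P n) := by
    refine (intb hPM (g := fun w : E n × ℝ => (inner ℝ w.1 (x : E n) : ℝ)) (by fun_prop)
      (c1 := ‖(x : E n)‖) (c2 := 0) ?_).1
    intro w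
    have := abs_real_inner_le_norm w.1 (x : E n)
    simpa using this
  rw [integral_add j1 ((i20 hPM n).const_mul _), integral_const_mul, p4,
    p5 (fun y => inner ℝ y (x : E n))]
  ring

lemma mm_bd (hPM : PMoments) (h2 : ∀ (G : E n) (x : Sph n), UU bd (bd x) G = inner ℝ G (x : E n))
    (h1 : ∀ q, Good 1 (UU bd q))
    (h4 : ∀ (q : M) (G : E n), UU bd q G ^ 2 ≤ ‖G‖ ^ 2)
    (η : E n) (x : Sph n) : mm bd η (bd x) = (x : E n) := by
  obtain ⟨p0, p1, p2, p3, p4, p5, p6, p7, p8⟩ := hPM n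
  have b1 : Integrable (fun w : E n × ℝ => UU bd (bd x) (xi η w) • w.1) (P n) := by
    refine (intm hPM (cont_UU h1 η (bd x)) (c1 := 1) (c2 := ‖η‖) ?_).1
    intro w
    refine (abs_UU_le h4 (bd x) _).trans ?_
    rw [mul_one]
    exact norm_xi_le η w
  refine ext_inner_right ℝ fun v => ?_
  unfold mm
  rw [real_inner_comm, ← integral_inner b1 v]
  have e : (fun w : E n × ℝ => (inner ℝ v (UU bd (bd x) (xi η w) • w.1) : ℝ)) =
      fun w => inner ℝ w.1 (x : E n) * inner ℝ w.1 v +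
        inner ℝ η (x : E n) * (w.2 * inner ℝ w.1 v) := by
    funext w
    rw [h2]
    unfold xi
    rw [inner_add_left, real_inner_smul_left, real_inner_smul_right, real_inner_comm w.1 v]
    ring
  rw [e]
  have j1 : Integrable (fun w : E n × ℝ => w.2 * (inner ℝ w.1 v : ℝ)) (P n) := by
    refine (intb hPM (g := fun w : E n × ℝ => (inner ℝ w.1 v : ℝ)) (by fun_prop)
      (c1 := ‖v‖) (c2 := 0) ?_).1
    intro w
    have := abs_real_inner_le_norm w.1 v
    simpa using this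
  have j2 : Integrable (fun w : E n × ℝ => (inner ℝ w.1 (x : E n) : ℝ) * inner ℝ w.1 v) (P n) := by
    have hc : Continuous fun w : E n × ℝ => (inner ℝ w.1 (x : E n) : ℝ) * inner ℝ w.1 v := by
      fun_prop
    refine ((i02 hPM n).const_mul (‖(x : E n)‖ * ‖v‖)).mono' hc.aestronglyMeasurable
      (Filter.Eventually.of_forall fun w => ?_)
    rw [norm_mul, Real.norm_eq_abs, Real.norm_eq_abs]
    have a1 := abs_real_inner_le_norm w.1 (x : E n)
    have a2 := abs_real_inner_le_norm w.1 v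
    calc |(inner ℝ w.1 (x : E n) : ℝ)| * |(inner ℝ w.1 v : ℝ)|
        ≤ (‖w.1‖ * ‖(x : E n)‖) * (‖w.1‖ * ‖v‖) :=
          mul_le_mul a1 a2 (abs_nonneg _) (by positivity)
      _ = ‖(x : E n)‖ * ‖v‖ * ‖w.1‖ ^ 2 := by ring
  rw [integral_add j2 (j1.const_mul _), integral_const_mul, p6 (x : E n) v,
    p5 (fun y => inner ℝ y v), mul_zero, add_zero]

lemma bb_upper (hPM : PMoments) (h1 : ∀ q, Good 1 (UU bd q))
    (h4 : ∀ (q : M) (G : E n), UU bd q G ^ 2 ≤ ‖G‖ ^ 2) (η : E n) (q : M) :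
    bb bd η q ≤ ‖η‖ / 3 := by
  obtain ⟨p0, p1, p2, p3, p4, p5, p6, p7, p8⟩ := hPM n
  have b1 : ∀ (η : E n) (q : M), Integrable (fun w : E n × ℝ => w.2 * UU bd q (xi η w)) (P n) := by
    intro η q
    refine (intb hPM (cont_UU h1 η q) (c1 := 1) (c2 := ‖η‖) ?_).1
    intro w
    refine (abs_UU_le h4 q _).trans ?_
    rw [mul_one]
    exact norm_xi_le η w
  have b2 : Integrable (fun w : E n × ℝ => w.2 * UU bd q w.1) (P n) := by
    have := b1 0 q
    have e : (fun w : E n × ℝ => w.2 * UU bd q (xi 0 w)) = fun w => w.2 * UU bd q w.1 := by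
      funext w
      simp [xi]
    rw [e] at this
    exact this
  have h5 : ∫ w : E n × ℝ, w.2 * UU bd q w.1 ∂(P n) = 0 := p5 (fun y => UU bd q y)
  have h6 : bb bd η q = ∫ w : E n × ℝ, (w.2 * UU bd q (xi η w) - w.2 * UU bd q w.1) ∂(P n) := by
    rw [integral_sub (b1 η q) b2, h5, sub_zero]
    rfl
  have h7 : ∫ w : E n × ℝ, (w.2 * UU bd q (xi η w) - w.2 * UU bd q w.1) ∂(P n) ≤
      ∫ w : E n × ℝ, ‖η‖ * w.2 ^ 2 ∂(P n) := by
    refine integral_mono ((b1 η q).sub b2) ((i20 hPM n).const_mul _) ?_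
    intro w
    have a1 := (h1 q).lip (xi η w) w.1
    have a2 : xi η w - w.1 = w.2 • η := by
      unfold xi
      abel
    rw [a2, norm_smul, Real.norm_eq_abs, one_mul] at a1
    have a3 : w.2 * UU bd q (xi η w) - w.2 * UU bd q w.1 =
        w.2 * (UU bd q (xi η w) - UU bd q w.1) := by ring
    have a4 : w.2 * (UU bd q (xi η w) - UU bd q w.1) ≤
        |w.2| * |UU bd q (xi η w) - UU bd q w.1| := by
      rw [← abs_mul]
      exact le_abs_self _
    have a5 := mul_le_mul_of_nonneg_left a1 (abs_nonneg w.2)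
    have a6 : |w.2| * |w.2| = w.2 ^ 2 := by rw [abs_mul_abs_self]; ring
    have a7 : |w.2| * (|w.2| * ‖η‖) = ‖η‖ * w.2 ^ 2 := by rw [← mul_assoc, a6]; ring
    have : w.2 * UU bd q (xi η w) - w.2 * UU bd q w.1 ≤ ‖η‖ * w.2 ^ 2 := by linarith
    exact this
  rw [integral_const_mul, p4] at h7
  rw [h6]
  linarith

end facts

theorem main (hPM : PMoments) (hUF : UFacts) : PsiFacts := by
  intro n hn M _ bd hbd
  obtain ⟨h1, h2, h3, h4, -⟩ := hUF n hn M bd hbd
  refine ⟨fun η R q => psi_eq bd η R q, ?_, ?_, ?_, ?_, ?_⟩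
  · intro η R x
    rw [psi_eq, bb_bd hPM h2, mm_bd hPM h2 h1 h4]
    have hx : ‖(x : E n)‖ = 1 := by simp
    have e : ‖R • (x : E n) - η‖ ^ 2 = R ^ 2 - 2 * R * inner ℝ η (x : E n) + ‖η‖ ^ 2 := by
      rw [norm_sub_sq_real, norm_smul, Real.norm_eq_abs, hx, mul_one, sq_abs,
        real_inner_smul_left, real_inner_comm]
      ring
    rw [e]
    congr 1
    ring
  · intro η q
    rw [psi_eq]
    simp
  · intro η R q hR
    rw [psi_eq]
    have k := mul_le_mul_of_nonneg_left (bb_upper hPM h1 h4 η q) hR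
    show (R - ‖η‖) ^ 2 / 6 ≤ (R ^ 2 + ‖η‖ ^ 2) / 6 - R * bb bd η q
    nlinarith [k]
  · have hb : Continuous fun z : E n × M => bb bd z.1 z.2 :=
      cont_of_est (fun z : E n × M => bb bd z.1 z.2) (C11 n) (C20 n)
        (fun η η' q q' => bb_diff hPM h1 h3 h4 η η' q q')
    have hm : Continuous fun z : E n × M => mm bd z.1 z.2 :=
      cont_of_est (fun z : E n × M => mm bd z.1 z.2) (C02 n) (C11 n)
        (fun η η' q q' => mm_diff hPM h1 h3 h4 η η' q q')
    have hb' : Continuous fun z : E n × ℝ × M => bb bd z.1 z.2.2 :=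
      hb.comp (continuous_fst.prodMk (continuous_snd.comp continuous_snd))
    have hm' : Continuous fun z : E n × ℝ × M => mm bd z.1 z.2.2 :=
      hm.comp (continuous_fst.prodMk (continuous_snd.comp continuous_snd))
    have e : (fun z : E n × ℝ × M => Psi bd z.1 z.2.1 z.2.2) = fun z =>
        ((z.2.1 ^ 2 + ‖z.1‖ ^ 2) / 6 - z.2.1 * bb bd z.1 z.2.2,
          z.2.1 • mm bd z.1 z.2.2 - z.1) := by
      funext z
      rw [psi_eq]
    rw [e]
    fun_prop
  · intro η K
    refine ⟨|K| / 3 + (C11 n + ‖η‖ * C20 n) + (C02 n + ‖η‖ * C11 n) +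
      |K| * (C11 n + ‖η‖ * C20 n) + |K| * (C02 n + ‖η‖ * C11 n), ?_⟩
    intro R hR R' hR' q q'
    have c11 := C11_nonneg n
    have c20 := C20_nonneg n
    have c02 := C02_nonneg n
    have hη := norm_nonneg η
    have hd : 0 ≤ dist q q' := dist_nonneg
    have hr : 0 ≤ |R - R'| := abs_nonneg _
    have hK : |K| = K := abs_of_nonneg (hR.1.trans hR.2)
    have hK0 : 0 ≤ K := hR.1.trans hR.2
    rw [hK]
    have u1 := bb_le hPM h1 h4 η q
    have u2 := mm_le hPM h1 h4 η q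
    have u3 := bb_diff hPM h1 h3 h4 η η q q'
    have u4 := mm_diff hPM h1 h3 h4 η η q q'
    rw [sub_self, norm_zero, zero_add] at u3 u4
    rw [psi_eq, psi_eq]
    set b := C11 n + ‖η‖ * C20 n with hbdef
    set m := C02 n + ‖η‖ * C11 n with hmdef
    have hb0 : 0 ≤ b := by positivity
    have hm0 : 0 ≤ m := by positivity
    have u3' : |bb bd η q - bb bd η q'| ≤ b * dist q q' := by
      refine u3.trans (le_of_eq ?_)
      rw [hbdef]; ring
    have u4' : ‖mm bd η q - mm bd η q'‖ ≤ m * dist q q' := by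
      refine u4.trans (le_of_eq ?_)
      rw [hmdef]; ring
    have v1 : |((R ^ 2 + ‖η‖ ^ 2) / 6 - R * bb bd η q) - ((R' ^ 2 + ‖η‖ ^ 2) / 6 -
        R' * bb bd η q')| ≤ K / 3 * |R - R'| + b * |R - R'| + K * (b * dist q q') := by
      have e1 : ((R ^ 2 + ‖η‖ ^ 2) / 6 - R * bb bd η q) - ((R' ^ 2 + ‖η‖ ^ 2) / 6 -
          R' * bb bd η q') = (R + R') / 6 * (R - R') - (R - R') * bb bd η q -
            R' * (bb bd η q - bb bd η q') := by ring
      rw [e1]
      have w1 : |(R + R') / 6 * (R - R')| ≤ K / 3 * |R - R'| := by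
        rw [abs_mul, abs_of_nonneg (by linarith [hR.1, hR'.1] : 0 ≤ (R + R') / 6)]
        exact mul_le_mul_of_nonneg_right (by linarith [hR.2, hR'.2]) hr
      have w2 : |(R - R') * bb bd η q| ≤ b * |R - R'| := by
        rw [abs_mul, mul_comm b]
        exact mul_le_mul_of_nonneg_left u1 hr
      have w3 : |R' * (bb bd η q - bb bd η q')| ≤ K * (b * dist q q') := by
        rw [abs_mul, abs_of_nonneg hR'.1]
        exact mul_le_mul hR'.2 u3' (abs_nonneg _) hK0
      refine (abs_sub _ _).trans ?_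
      refine (add_le_add (abs_sub _ _) le_rfl).trans ?_
      linarith
    have v2 : ‖(R • mm bd η q - η) - (R' • mm bd η q' - η)‖ ≤
        m * |R - R'| + K * (m * dist q q') := by
      have e1 : (R • mm bd η q - η) - (R' • mm bd η q' - η) =
          (R - R') • mm bd η q + R' • (mm bd η q - mm bd η q') := by
        rw [sub_smul, smul_sub]
        abel
      rw [e1]
      refine (norm_add_le _ _).trans ?_
      rw [norm_smul, norm_smul, Real.norm_eq_abs, Real.norm_eq_abs, abs_of_nonneg hR'.1]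
      have w1 : |R - R'| * ‖mm bd η q‖ ≤ m * |R - R'| := by
        rw [mul_comm m]
        exact mul_le_mul_of_nonneg_left u2 hr
      have w2 : R' * ‖mm bd η q - mm bd η q'‖ ≤ K * (m * dist q q') :=
        mul_le_mul hR'.2 u4' (norm_nonneg _) hK0
      linarith
    have tot : ∀ t : ℝ, t ≤ K / 3 * |R - R'| + b * |R - R'| + K * (b * dist q q') ∨
        t ≤ m * |R - R'| + K * (m * dist q q') →
        t ≤ (K / 3 + b + m + K * b + K * m) * (|R - R'| + dist q q') := by
      intro t ht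
      have y1 : 0 ≤ K / 3 * |R - R'| := by positivity
      have y2 : 0 ≤ b * |R - R'| := by positivity
      have y3 : 0 ≤ m * |R - R'| := by positivity
      have y4 : 0 ≤ K * b * |R - R'| := by positivity
      have y5 : 0 ≤ K * m * |R - R'| := by positivity
      have y6 : 0 ≤ K / 3 * dist q q' := by positivity
      have y7 : 0 ≤ b * dist q q' := by positivity
      have y8 : 0 ≤ m * dist q q' := by positivity
      have y9 : 0 ≤ K * b * dist q q' := by positivity
      have y10 : 0 ≤ K * m * dist q q' := by positivity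
      have e2 : (K / 3 + b + m + K * b + K * m) * (|R - R'| + dist q q') =
          K / 3 * |R - R'| + b * |R - R'| + m * |R - R'| + K * b * |R - R'| + K * m * |R - R'| +
          (K / 3 * dist q q' + b * dist q q' + m * dist q q' + K * b * dist q q' +
            K * m * dist q q') := by ring
      rw [e2]
      rcases ht with ht | ht
      · linarith [mul_assoc K b (dist q q')]
      · linarith [mul_assoc K m (dist q q')]
    rw [Prod.mk_sub_mk, Prod.norm_mk]
    apply tot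
    rcases le_total ‖(R ^ 2 + ‖η‖ ^ 2) / 6 - R * bb bd η q - ((R' ^ 2 + ‖η‖ ^ 2) / 6 -
        R' * bb bd η q')‖ ‖R • mm bd η q - η - (R' • mm bd η q' - η)‖ with hh | hh
    · right
      rw [max_eq_right hh]
      exact v2
    · left
      rw [max_eq_left hh, Real.norm_eq_abs]
      exact v1

end Pool.Agent.W358.FV.PF
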